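import Pool.Agent.H31.CRG.TR
import Pool.Agent.H65.CRG.TN
import Pool.Agent.H37.CV.All

/-!
# Critical zeros in every even degree: the second moment of the primitive characters (row SE)
-/

set_option autoImplicit false

open NumberField NumberField.InfinitePlace Complex Filter Topology MeasureTheory

namespace Pool.Agent.H81.CRG

open Pool.Agent.H28.RC Pool.Agent.H25.HK Pool.Agent.H37.CV Pool.Agent.H65.CRZ Pool.Agent.H65.CRG

open scoped Classical in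
/-- the weights of the large sets vanish -/
theorem xS_eq_zero {α : Type} (N : α → ℝ) (A S : Finset α) (M : ℝ)
    (h : ∀ T : Finset α, M < nS N S * nS N T) : xS N A M S = 0 := by
  unfold xS
  rw [Finset.sum_eq_zero, mul_zero, zero_div]
  intro T hT
  exact absurd (Finset.mem_filter.1 hT).2.2 (not_le.2 (h T))

section

variable {K : Type} [Field K] [NumberField K]

/-- the weights are bounded by one -/
theorem abs_xw_le {M : ℝ} (hM : 1 ≤ M) (S : Finset (PrI K)) : |xw K M S| ≤ 1 := by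
  by_cases hS : S ⊆ PM K M
  · exact (a_CX (PrI K) np (PM K M) M Pool.Agent.H96.CV.two_le_np hM).2.2 S hS
  · obtain ⟨P, hP, hPM⟩ := Finset.not_subset.1 hS
    have h1 : M < np P := by
      by_contra h
      exact hPM (Pool.Agent.H96.CV.mem_PM.2 (not_lt.1 h))
    have h2 : np P ≤ nS np S := by
      classical
      unfold nS
      rw [← Finset.mul_prod_erase S np hP]
      have h3 : 1 ≤ ∏ x ∈ S.erase P, np x := Pool.Agent.H96.CV.one_le_nS (S.erase P)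
      have h4 := Pool.Agent.H96.CV.np_pos P
      nlinarith
    have h3 : xw K M S = 0 := by
      refine xS_eq_zero np _ S M fun T => ?_
      have h4 : 1 ≤ nS np T := Pool.Agent.H96.CV.one_le_nS T
      nlinarith
    rw [h3, abs_zero]
    exact zero_le_one

/-- the coefficients of the mollifier -/
theorem norm_cu_le {M : ℝ} (hM : 1 ≤ M) (u : ℝ) (S : Finset (PrI K)) :
    ‖cu K M u S‖ ≤ nS np S ^ (-(1 / 2) : ℝ) := by
  have h1 : 0 < nS np S := Pool.Agent.H96.CV.nS_pos S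
  unfold cu
  rw [norm_mul, Complex.norm_real, Real.norm_eq_abs, Complex.norm_cpow_eq_rpow_re_of_pos h1]
  have h2 : (-(1 / 2 + (u : ℂ) * I)).re = -(1 / 2) := by
    simp
  rw [h2]
  have h3 := mul_le_mul_of_nonneg_right (abs_xw_le hM S)
    (Real.rpow_nonneg h1.le (-(1 / 2) : ℝ))
  rwa [one_mul] at h3

end

theorem cB_pos (K : Type) [Field K] [NumberField K] (q : ℕ) (hq : q.Prime) :
    0 < cB K (qi K q) := by
  unfold cB
  refine div_pos (Real.sqrt_pos.2 ?_) (by positivity)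
  rw [cnd]
  refine mul_pos (abs_pos.2 (by exact_mod_cast discr_ne_zero K)) ?_
  rw [nm]
  exact_mod_cast Nat.pos_of_ne_zero (by
    rw [Ne, Ideal.absNorm_eq_zero_iff]; exact qi_ne_bot K q hq)

/-- the points with a small shift -/
theorem shift {δ : ℝ} (hδ : δ ≤ 1 / 8) (α β : ℂ) (u : ℝ) (hα : ‖α‖ ≤ δ) (hβ : ‖β‖ ≤ δ) :
    |(1 / 2 + α + u * I : ℂ).re - 1 / 2| ≤ δ ∧ |(1 / 2 + β - u * I : ℂ).re - 1 / 2| ≤ δ ∧
    1 + |(1 / 2 + α + u * I : ℂ).im| + |(1 / 2 + β - u * I : ℂ).im| ≤ 3 * (1 + |u|) := by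
  have h1 : (1 / 2 + α + u * I : ℂ).re = 1 / 2 + α.re := by simp
  have h2 : (1 / 2 + β - u * I : ℂ).re = 1 / 2 + β.re := by simp
  have h3 : (1 / 2 + α + u * I : ℂ).im = α.im + u := by simp
  have h4 : (1 / 2 + β - u * I : ℂ).im = β.im - u := by simp
  rw [h1, h2, h3, h4]
  refine ⟨?_, ?_, ?_⟩
  · rw [add_sub_cancel_left]
    exact (Complex.abs_re_le_norm α).trans hα
  · rw [add_sub_cancel_left]
    exact (Complex.abs_re_le_norm β).trans hβ
  · have h5 := abs_add_le α.im u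
    have h6 := abs_sub β.im u
    have h7 := (Complex.abs_im_le_norm α).trans hα
    have h8 := (Complex.abs_im_le_norm β).trans hβ
    have h9 := abs_nonneg u
    linarith

open scoped Classical in
theorem pf_SE (h1 : Pool.Agent.H31.CRG.T_OP) (_h2 : Pool.Agent.H31.CRG.T_DT)
    (h3 : Pool.Agent.H31.CRG.T_DL) (h4 : Pool.Agent.H31.CRG.T_DS)
    (h5 : Pool.Agent.H31.CRG.T_DR) : Pool.Agent.H65.CRG.T_SE := by
  intro K _ _ _ ε₁ c₀ C₀ hε0 hε1 hc₀ hC₀
  obtain ⟨δ₁, B₁, hδ₁, hδ₁', hB₁, hDL⟩ := h3 K ε₁ hε0 hε1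
  obtain ⟨δ₂, C₁, B₂, hδ₂, hδ₂', hC₁, hB₂, q₁, hDS⟩ := h4 K
  obtain ⟨B₃, hB₃, hDR⟩ := h5 K ε₁ c₀ C₀ hε0 hε1 hc₀ hC₀
  set n : ℕ := Module.finrank ℚ K with hn
  set B : ℝ := max B₁ (max B₂ B₃) with hBdef
  have hBa : B₁ ≤ B := le_max_left _ _
  have hBb : B₂ ≤ B := (le_max_left _ _).trans (le_max_right _ _)
  have hBc : B₃ ≤ B := (le_max_right _ _).trans (le_max_right _ _)
  have hB0 : 0 ≤ B := hB₁.trans hBa
  refine ⟨B, hB0, ?_⟩
  intro η hη
  obtain ⟨c, hc, hRL⟩ := a_RL K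
  set κ : ℝ := η / (4 * (2 ^ n * 2 ^ n) * 3 ^ B) with hκ
  have h3B : (0 : ℝ) < 3 ^ B := Real.rpow_pos_of_pos (by norm_num) _
  have h3B1 : (1 : ℝ) ≤ 3 ^ B := Real.one_le_rpow (by norm_num) hB0
  have hκ0 : 0 < κ := by positivity
  obtain ⟨q₂, hq2⟩ := hDR κ hκ0
  obtain ⟨q₃, hq3⟩ := hDL κ c hκ0 hc
  obtain ⟨c', C, q₄, hc', hq4⟩ := a_HQ K
  have h1' : Tendsto (fun q : ℕ => (|C| * C₁) * (q : ℝ) ^ (-(1 / 4) : ℝ)) atTop (𝓝 0) := by
    have := (tendsto_rpow_neg_atTop (show (0 : ℝ) < 1 / 4 by norm_num)).comp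
      tendsto_natCast_atTop_atTop
    simpa using this.const_mul (|C| * C₁)
  obtain ⟨q₅, hq5⟩ := eventually_atTop.1 (h1'.eventually (gt_mem_nhds hκ0))
  have h2' : Tendsto (fun q : ℕ => C₀ / Real.log (q : ℝ)) atTop (𝓝 0) :=
    (Real.tendsto_log_atTop.comp tendsto_natCast_atTop_atTop).const_div_atTop C₀
  obtain ⟨q₆, hq6⟩ := eventually_atTop.1 (h2'.eventually (gt_mem_nhds (lt_min hδ₁ hδ₂)))
  refine ⟨max (max q₁ q₂) (max (max q₃ q₆) (max q₄ q₅)),
    fun q hq hqq α β u hα hβ hαβ => ?_⟩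
  have hqa : q₁ ≤ q := le_trans (le_trans (le_max_left _ _) (le_max_left _ _)) hqq
  have hqb : q₂ ≤ q := le_trans (le_trans (le_max_right _ _) (le_max_left _ _)) hqq
  have hqc : q₃ ≤ q := le_trans (le_trans (le_max_left _ _)
    ((le_max_left _ _).trans (le_max_right _ _))) hqq
  have hqf : q₆ ≤ q := le_trans (le_trans (le_max_right _ _)
    ((le_max_left _ _).trans (le_max_right _ _))) hqq
  have hqd : q₄ ≤ q := le_trans (le_trans (le_max_left _ _)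
    ((le_max_right _ _).trans (le_max_right _ _))) hqq
  have hqe : q₅ ≤ q := le_trans (le_trans (le_max_right _ _)
    ((le_max_right _ _).trans (le_max_right _ _))) hqq
  have hq0 : (0 : ℝ) < q := by exact_mod_cast hq.pos
  have hq1' : (1 : ℝ) < q := by exact_mod_cast hq.one_lt
  have hMe : Mq ε₁ q = (q : ℝ) ^ (1 - 2 * ε₁) := by rw [Mq]
  have hM1 : 1 ≤ Mq ε₁ q := by rw [hMe]; exact Real.one_le_rpow hq1'.le (by linarith)
  have hMq : Mq ε₁ q < q := by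
    have := Real.rpow_lt_rpow_of_exponent_lt hq1' (show 1 - 2 * ε₁ < 1 by linarith)
    rw [hMe]
    rwa [Real.rpow_one] at this
  have hQ0 : 0 < cB K (qi K q) ^ 2 := by
    have := cB_pos K q hq
    positivity
  have hPM : ∀ P : PrI K, qi K q ≤ P.1 → Mq ε₁ q < np P :=
    fun P h => hMq.trans_le (le_np K q hq P h)
  obtain ⟨hfin, T, σ, hT, hσ, hsum⟩ := a_IE K q hq
  have hδ := hq6 q hqf
  have hαδ : ‖α‖ ≤ min δ₁ δ₂ := hα.trans hδ.le
  have hβδ : ‖β‖ ≤ min δ₁ δ₂ := hβ.trans hδ.le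
  obtain ⟨hs1, hs2, him⟩ := shift ((min_le_left _ _).trans hδ₁') α β u hαδ hβδ
  have hc₁ : ∀ S, ‖cu K (Mq ε₁ q) u S‖ ≤ nS np S ^ (-(1 / 2) : ℝ) := fun S => norm_cu_le hM1 u S
  have hc₂ : ∀ S, ‖cu K (Mq ε₁ q) (-u) S‖ ≤ nS np S ^ (-(1 / 2) : ℝ) :=
    fun S => norm_cu_le hM1 (-u) S
  -- the facts about the real relations, before the abbreviations
  have hreal := fun X hX => hq2 q hq hqb α β u hα hβ hαβ X hX
  set M : ℝ := Mq ε₁ q with hM
  set Q : ℝ := cB K (qi K q) ^ 2 with hQ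
  set s₁ : ℂ := 1 / 2 + α + u * I with hs₁def
  set s₂ : ℂ := 1 / 2 + β - u * I with hs₂def
  set c₁ : Finset (PrI K) → ℂ := cu K M u with hc₁def
  set c₂ : Finset (PrI K) → ℂ := cu K M (-u) with hc₂def
  set N : ℝ := (nc (qi K q) (qi K q) : ℝ) with hN
  obtain ⟨hc1, hc2⟩ := hq4 q hq hqd
  have hNpos : 0 < N := lt_of_lt_of_le (by positivity) hc1
  set D : Ideal (𝓞 K) × Ideal (𝓞 K) → ℂ :=
    fun p => Dn (qi K q) Q M s₁ s₂ c₁ c₂ p.1 p.2 with hD
  -- the conditions on the exponents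
  have hs1a : |s₁.re - 1 / 2| ≤ δ₁ := hs1.trans (min_le_left _ _)
  have hs1b : |s₁.re - 1 / 2| ≤ δ₂ := hs1.trans (min_le_right _ _)
  have hs2a : |s₂.re - 1 / 2| ≤ δ₁ := hs2.trans (min_le_left _ _)
  have hs2b : |s₂.re - 1 / 2| ≤ δ₂ := hs2.trans (min_le_right _ _)
  have hs1c := abs_le.1 (hs1a.trans hδ₁')
  have hs2c := abs_le.1 (hs2a.trans hδ₁')
  -- the growth factors
  set W : ℝ := 3 ^ B * (1 + |u|) ^ B with hW
  have hu1 : 1 ≤ 1 + |u| := by
    have := abs_nonneg u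
    linarith
  have hb1 : 1 ≤ 1 + |s₁.im| + |s₂.im| := by
    have := abs_nonneg s₁.im
    have := abs_nonneg s₂.im
    linarith
  have hWW : (1 + |s₁.im| + |s₂.im|) ^ B ≤ W := by
    rw [hW, ← Real.mul_rpow (by norm_num) (by linarith)]
    exact Real.rpow_le_rpow (by linarith) him hB0
  have hW1 : (1 + |s₁.im| + |s₂.im|) ^ B₁ ≤ W :=
    (Real.rpow_le_rpow_of_exponent_le hb1 hBa).trans hWW
  have hW2 : (1 + |s₁.im| + |s₂.im|) ^ B₂ ≤ W :=
    (Real.rpow_le_rpow_of_exponent_le hb1 hBb).trans hWW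
  have hu0 : (0 : ℝ) < (1 + |u|) ^ B := Real.rpow_pos_of_pos (by linarith) _
  have hW3 : (1 + |u|) ^ B₃ ≤ W := by
    refine (Real.rpow_le_rpow_of_exponent_le hu1 hBc).trans ?_
    rw [hW]
    nlinarith
  have hW0 : 0 ≤ W := by positivity
  -- the opened second moment for each divisor
  have hopen : ∀ d : Ideal (𝓞 K), qi K q ≤ d →
      ∑ᶠ ψ ∈ Ch (qi K q) d, A2n Q s₁ s₂ ψ * (pol M c₁ ψ *
        pol M c₂ (fun I => (starRingEnd ℂ) (ψ I))) =
        nc (qi K q) d * ∑' p : CP (qi K q) d, D p.1 := by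
    intro d hd
    exact (h1 K (qi K q) d Q M s₁ s₂ c₁ c₂ (qi_ne_bot K q hq) hd hQ0 hM1 hPM (by linarith)
      (by linarith) (by linarith) (by linarith)).2
  have hnorm : ∀ d : Ideal (𝓞 K), qi K q ≤ d →
      Summable (fun p : CP (qi K q) d => ‖D p.1‖) := fun d hd =>
    (h1 K (qi K q) d Q M s₁ s₂ c₁ c₂ (qi_ne_bot K q hq) hd hQ0 hM1 hPM (by linarith)
      (by linarith) (by linarith) (by linarith)).1
  -- the long relations
  have hlong : ∀ d : Ideal (𝓞 K), qi K q ≤ d → ∀ X : Finset (Ideal (𝓞 K) × Ideal (𝓞 K)),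
      (∀ p ∈ X, p ∈ CP (qi K q) d ∧ c * nm d ^ 2 ≤ nm p.1 * nm p.2 * (q : ℝ) ^ n) →
      (nc (qi K q) d : ℝ) * ∑ p ∈ X, ‖D p‖ ≤ κ * W * N := by
    intro d hd X hX
    refine (hq3 q hq hqc d s₁ s₂ c₁ c₂ hd hs1a hs2a hc₁ hc₂ X hX).trans ?_
    gcongr
  -- the proper divisors
  have hprop : ∀ d : Ideal (𝓞 K), qi K q ≤ d → d ≠ qi K q →
      (nc (qi K q) d : ℝ) * ‖∑' p : CP (qi K q) d, D p.1‖ ≤ 2 * κ * W * N := by
    intro d hd hdq
    have h2 : (nc (qi K q) d : ℝ) ≤ |C| * (q : ℝ) ^ (-(1 / 2) : ℝ) * N := by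
      refine ((hc2 d hd).2 hdq).trans ?_
      gcongr
      exact le_abs_self C
    have h3 : (nc (qi K q) d : ℝ) * ∑' p : CP (qi K q) d, ‖D p.1‖ ≤ 2 * κ * W * N := by
      rw [← tsum_mul_left]
      refine (tsum_norm_le' (CP (qi K q) d) (fun p => (nc (qi K q) d : ℝ) * ‖D p‖)
        (fun p => by positivity) (2 * κ * W * N) ?_).2
      intro X hX
      rw [← Finset.mul_sum]
      rw [← Finset.sum_filter_add_sum_filter_not X (fun p =>
        c * nm d ^ 2 ≤ nm p.1 * nm p.2 * (q : ℝ) ^ n), mul_add]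
      have h4 := hlong d hd (X.filter fun p =>
        c * nm d ^ 2 ≤ nm p.1 * nm p.2 * (q : ℝ) ^ n) (by
          intro p hp
          rw [Finset.mem_filter] at hp
          exact ⟨hX p hp.1, hp.2⟩)
      have h5 := hDS ε₁ q hε0 hε1 hq hqa s₁ s₂ c₁ c₂ hs1b hs2b hc₁ hc₂ (X.filter fun p =>
        ¬ c * nm d ^ 2 ≤ nm p.1 * nm p.2 * (q : ℝ) ^ n) (by
          intro p hp
          rw [Finset.mem_filter, not_le] at hp
          obtain ⟨y₁, y₂, hy, -⟩ := hRL q hq d hd p (hX p hp.1) hp.2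
          exact ⟨(hX p hp.1).2.2.1, y₁, y₂, hy⟩)
      have h6 : (nc (qi K q) d : ℝ) * ∑ p ∈ X.filter (fun p =>
          ¬ c * nm d ^ 2 ≤ nm p.1 * nm p.2 * (q : ℝ) ^ n), ‖D p‖ ≤ κ * W * N := by
        calc _ ≤ (|C| * (q : ℝ) ^ (-(1 / 2) : ℝ) * N) * (C₁ * W * (q : ℝ) ^ (1 / 4 : ℝ)) := by
              refine mul_le_mul h2 (h5.trans ?_) (Finset.sum_nonneg fun _ _ => norm_nonneg _)
                (by positivity)
              gcongr
          _ = ((|C| * C₁) * (q : ℝ) ^ (-(1 / 4) : ℝ)) * W * N := by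
              rw [show (-(1 / 4) : ℝ) = -(1 / 2) + 1 / 4 by norm_num, Real.rpow_add hq0]
              ring
          _ ≤ κ * W * N := by
              gcongr
              exact (hq5 q hqe).le
      linarith
    refine le_trans ?_ h3
    refine mul_le_mul_of_nonneg_left ?_ (Nat.cast_nonneg _)
    exact norm_tsum_le_tsum_norm (hnorm d hd)
  -- the main term
  have htop : ((⊤, ⊤) : Ideal (𝓞 K) × Ideal (𝓞 K)) ∈ CP (qi K q) (qi K q) := by
    refine ⟨top_ne_bot, top_ne_bot, top_sup_eq _, top_sup_eq _, top_sup_eq _, 1, 1, one_ne_zero,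
      one_ne_zero, ?_, ?_, ?_, rfl⟩
    · rw [Ideal.span_singleton_one, top_sup_eq]
    · rw [Ideal.span_singleton_one, top_sup_eq]
    · rw [sub_self]; exact Ideal.zero_mem _
  have hmain : ‖(∑' p : CP (qi K q) (qi K q), D p.1) - D (⊤, ⊤)‖ ≤ 2 * κ * W := by
    have h2 := (hnorm (qi K q) le_rfl).of_norm
    have h3 := h2.tsum_eq_add_tsum_ite ⟨(⊤, ⊤), htop⟩
    rw [h3, add_sub_cancel_left]
    set G : Ideal (𝓞 K) × Ideal (𝓞 K) → ℝ := fun p => if p = (⊤, ⊤) then 0 else ‖D p‖ with hG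
    have hG0 : ∀ p, 0 ≤ G p := by
      intro p
      rw [hG]
      dsimp only
      split_ifs
      · exact le_rfl
      · exact norm_nonneg _
    have h4 : ∀ p : CP (qi K q) (qi K q),
        ‖(if p = ⟨(⊤, ⊤), htop⟩ then 0 else D p.1 : ℂ)‖ = G p.1 := by
      intro p
      rw [hG]
      dsimp only
      by_cases h5 : p.1 = (⊤, ⊤)
      · rw [if_pos h5, if_pos (Subtype.ext h5), norm_zero]
      · rw [if_neg h5, if_neg (fun h6 => h5 (congrArg Subtype.val h6))]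
    have h5 := tsum_norm_le' (CP (qi K q) (qi K q)) G hG0 (2 * κ * W) (by
      intro X hX
      have h6 : ∑ p ∈ X, G p = ∑ p ∈ X.filter (fun p => p ≠ (⊤, ⊤)), ‖D p‖ := by
        rw [Finset.sum_filter]
        refine Finset.sum_congr rfl fun p _ => ?_
        rw [hG]
        dsimp only
        by_cases h7 : p = (⊤, ⊤)
        · rw [if_pos h7, if_neg (by simpa using h7)]
        · rw [if_neg h7, if_pos h7]
      rw [h6]
      rw [← Finset.sum_filter_add_sum_filter_not (X.filter (fun p => p ≠ (⊤, ⊤))) (fun p =>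
        c * nm (qi K q) ^ 2 ≤ nm p.1 * nm p.2 * (q : ℝ) ^ n)]
      have h7 := hlong (qi K q) le_rfl ((X.filter (fun p => p ≠ (⊤, ⊤))).filter fun p =>
        c * nm (qi K q) ^ 2 ≤ nm p.1 * nm p.2 * (q : ℝ) ^ n) (by
          intro p hp
          rw [Finset.mem_filter, Finset.mem_filter] at hp
          exact ⟨hX p hp.1.1, hp.2⟩)
      have h8 := hreal ((X.filter (fun p => p ≠ (⊤, ⊤))).filter fun p =>
        ¬ c * nm (qi K q) ^ 2 ≤ nm p.1 * nm p.2 * (q : ℝ) ^ n) (by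
          intro p hp
          rw [Finset.mem_filter, Finset.mem_filter, not_le] at hp
          obtain ⟨y₁, y₂, hy, hy'⟩ := hRL q hq (qi K q) le_rfl p (hX p hp.1.1) hp.2
          exact ⟨hX p hp.1.1, hp.1.2, y₁, y₂, hy, hy' rfl⟩)
      have h9 : ∑ p ∈ (X.filter (fun p => p ≠ (⊤, ⊤))).filter (fun p =>
          c * nm (qi K q) ^ 2 ≤ nm p.1 * nm p.2 * (q : ℝ) ^ n), ‖D p‖ ≤ κ * W := by
        have h10 : N * ∑ p ∈ (X.filter (fun p => p ≠ (⊤, ⊤))).filter (fun p =>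
          c * nm (qi K q) ^ 2 ≤ nm p.1 * nm p.2 * (q : ℝ) ^ n), ‖D p‖ ≤ N * (κ * W) := by
          rw [mul_comm N (κ * W)]
          exact h7
        exact le_of_mul_le_mul_left h10 hNpos
      have h10 : ∑ p ∈ (X.filter (fun p => p ≠ (⊤, ⊤))).filter (fun p =>
          ¬ c * nm (qi K q) ^ 2 ≤ nm p.1 * nm p.2 * (q : ℝ) ^ n), ‖D p‖ ≤ κ * W := by
        refine h8.trans ?_
        gcongr
      linarith)
    calc ‖∑' p : CP (qi K q) (qi K q), (if p = ⟨(⊤, ⊤), htop⟩ then 0 else D p.1 : ℂ)‖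
        ≤ ∑' p : CP (qi K q) (qi K q), ‖(if p = ⟨(⊤, ⊤), htop⟩ then 0 else D p.1 : ℂ)‖ := by
          refine norm_tsum_le_tsum_norm ?_
          simp only [h4]
          exact h5.1
      _ = ∑' p : CP (qi K q) (qi K q), G p.1 := tsum_congr h4
      _ ≤ 2 * κ * W := h5.2
  -- the sum over the primitive characters
  have hall : (∑ᶠ χ ∈ Pr K (qi K q), A2n Q s₁ s₂ χ.ψ * (pol M c₁ χ.ψ *
        pol M c₂ (fun I => (starRingEnd ℂ) (χ.ψ I)))) =
      (N : ℂ) * (∑' p : CP (qi K q) (qi K q), D p.1) +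
        ∑ d ∈ T, (σ d : ℂ) * (nc (qi K q) d * ∑' p : CP (qi K q) d, D p.1) := by
    have h2 := hsum (fun ψ => A2n Q s₁ s₂ ψ * (pol M c₁ ψ *
        pol M c₂ (fun I => (starRingEnd ℂ) (ψ I))))
    rw [h2, hopen _ le_rfl]
    have h3 : ∑ d ∈ T, (σ d : ℂ) * ∑ᶠ ψ ∈ Ch (qi K q) d, A2n Q s₁ s₂ ψ * (pol M c₁ ψ *
        pol M c₂ (fun I => (starRingEnd ℂ) (ψ I))) =
        ∑ d ∈ T, (σ d : ℂ) * (nc (qi K q) d * ∑' p : CP (qi K q) d, D p.1) :=
      Finset.sum_congr rfl fun d hd => by rw [hopen d (hσ d hd).1]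
    rw [h3, hN, Complex.ofReal_natCast]
  have hB : ‖∑ d ∈ T, (σ d : ℂ) * (nc (qi K q) d * ∑' p : CP (qi K q) d, D p.1)‖ ≤
      (2 ^ n * 2 ^ n) * (2 * κ * W * N) := by
    have h2 : ∀ d ∈ T, ‖(σ d : ℂ) * (nc (qi K q) d * ∑' p : CP (qi K q) d, D p.1)‖ ≤
        2 ^ n * (2 * κ * W * N) := by
      intro d hd
      obtain ⟨hd1, hd2, hd3⟩ := hσ d hd
      rw [norm_mul, norm_mul, Complex.norm_natCast]
      refine mul_le_mul ?_ (hprop d hd1 hd2) (by positivity) (by positivity)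
      rw [Complex.norm_intCast]
      exact_mod_cast hd3
    refine (norm_sum_le _ _).trans ((Finset.sum_le_sum h2).trans ?_)
    rw [Finset.sum_const, nsmul_eq_mul]
    have h7 : (T.card : ℝ) ≤ 2 ^ n := by exact_mod_cast hT
    calc (T.card : ℝ) * (2 ^ n * (2 * κ * W * N)) ≤ 2 ^ n * (2 ^ n * (2 * κ * W * N)) := by
          gcongr
      _ = _ := by ring
  have hid : (N : ℂ) * (∑' p : CP (qi K q) (qi K q), D p.1) +
        ∑ d ∈ T, (σ d : ℂ) * (nc (qi K q) d * ∑' p : CP (qi K q) d, D p.1) -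
      (nc (qi K q) (qi K q) : ℂ) * D (⊤, ⊤) =
      (N : ℂ) * ((∑' p : CP (qi K q) (qi K q), D p.1) - D (⊤, ⊤)) +
        ∑ d ∈ T, (σ d : ℂ) * (nc (qi K q) d * ∑' p : CP (qi K q) d, D p.1) := by
    rw [hN, Complex.ofReal_natCast]
    ring
  rw [hall]
  refine (le_of_eq (congrArg norm hid)).trans ?_
  refine (norm_add_le _ _).trans ?_
  have h9 : ‖(N : ℂ) * ((∑' p : CP (qi K q) (qi K q), D p.1) - D (⊤, ⊤))‖ ≤
      N * (2 * κ * W) := by
    rw [norm_mul, Complex.norm_real, Real.norm_of_nonneg hNpos.le]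
    exact mul_le_mul_of_nonneg_left hmain hNpos.le
  have hp1 : (1 : ℝ) ≤ 2 ^ n * 2 ^ n := by
    have : (1 : ℝ) ≤ 2 ^ n := one_le_pow₀ (by norm_num)
    nlinarith
  have h10 : (2 ^ n * 2 ^ n) * (4 * κ * W * N) = η * (1 + |u|) ^ B * N := by
    rw [hκ, hW]
    field_simp
  have h11 : 0 ≤ 2 * κ * W * N := by positivity
  calc ‖(N : ℂ) * ((∑' p : CP (qi K q) (qi K q), D p.1) - D (⊤, ⊤))‖ +
        ‖∑ d ∈ T, (σ d : ℂ) * (nc (qi K q) d * ∑' p : CP (qi K q) d, D p.1)‖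
      ≤ N * (2 * κ * W) + (2 ^ n * 2 ^ n) * (2 * κ * W * N) := add_le_add h9 hB
    _ ≤ (2 ^ n * 2 ^ n) * (2 * κ * W * N) + (2 ^ n * 2 ^ n) * (2 * κ * W * N) := by
        nlinarith
    _ = (2 ^ n * 2 ^ n) * (4 * κ * W * N) := by ring
    _ = η * (1 + |u|) ^ B * N := h10

end Pool.Agent.H81.CRG
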